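import Mathlib

/-!
# A smooth hypersurface of index `p` in characteristic `p`
-/

set_option autoImplicit false

namespace Pool.Agent.W495.NC

open MvPolynomial

noncomputable section

/-- The form `∑ t^i x_i^p + t^p ∑ x_i^(p-1) x_(i+1)` of degree `p` in the variables
`x_0, ..., x_(p-1)` (indices modulo `p`). -/
def form (p : ℕ) [NeZero p] {K : Type} [Field K] (t : K) : MvPolynomial (Fin p) K :=
  ∑ i : Fin p, C (t ^ (i : ℕ)) * X i ^ p + C (t ^ p) * ∑ i : Fin p, X i ^ (p - 1) * X (i + 1)

/-- The hypersurface has no point over an extension of degree prime to `p` of the field of rational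
functions in `t`. -/
def Anisotropic : Prop :=
  ∀ (p : ℕ) [Fact p.Prime] (k : Type) [Field k] [CharP k p] (L : Type) [Field L]
    [Algebra (RatFunc k) L] [FiniteDimensional (RatFunc k) L]
    (x : Fin p → L), ¬ p ∣ Module.finrank (RatFunc k) L →
    aeval x (form p (RatFunc.X : RatFunc k)) = 0 → x = 0

/-- The hypersurface is smooth (Jacobian criterion over every extension field). -/
def Smooth : Prop :=
  ∀ (p : ℕ) [Fact p.Prime] (_ : p ≠ 2) (k : Type) [Field k] [CharP k p] (Ω : Type) [Field Ω]
    [Algebra (RatFunc k) Ω] (x : Fin p → Ω),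
    aeval x (form p (RatFunc.X : RatFunc k)) = 0 →
    (∀ i, aeval x (pderiv i (form p (RatFunc.X : RatFunc k))) = 0) → x = 0

end

end Pool.Agent.W495.NC
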