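import Pool.Agent.W495.NC.Hyp

/-!
# Künneth projectors of saturated dg categories: definitions
-/

set_option autoImplicit false

namespace Pool.Agent.W495.NC

open MvPolynomial

noncomputable section

/-- Data of a saturated dg category `A` over a field `k`: the Grothendieck group
`K = K_0(A^op ⊗ A)` of the perfect bimodules, the even and the odd part `HPp`, `HPm` of the periodic
cyclic homology (over the coefficient field `L`: the larger one of the field `F` of coefficients and
`k`), the actions `actp`, `actm` of the bimodules on them, and the Euler characteristic
`chi M = ∑ (-1)^n dim_k HH_n(A; M)` of the Hochschild complex of a bimodule `M`. -/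
structure DgCat (L : Type) [Field L] where
  K : Type
  HPp : Type
  HPm : Type
  [grpK : AddCommGroup K]
  [grpP : AddCommGroup HPp]
  [grpM : AddCommGroup HPm]
  [modP : Module L HPp]
  [modM : Module L HPm]
  actp : K → (HPp →ₗ[L] HPp)
  actm : K → (HPm →ₗ[L] HPm)
  chi : K → ℤ
  /-- the class of the diagonal bimodule `A` -/
  diag : K

attribute [instance] DgCat.grpK DgCat.grpP DgCat.grpM DgCat.modP DgCat.modM

variable {L : Type} [Field L]

/-- Known properties of a saturated dg category: `HP` is finite-dimensional, the diagonal bimodule
acts as the identity, and the supertrace of the endomorphism of `HP(A)` that is given by a bimodule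
is the Euler characteristic of its Hochschild complex. -/
structure IsSaturated (A : DgCat L) : Prop where
  finP : FiniteDimensional L A.HPp
  finM : FiniteDimensional L A.HPm
  diagp : A.actp A.diag = 1
  diagm : A.actm A.diag = 1
  /-- the trace formula (the functor `HP` is symmetric monoidal) -/
  supertrace : ∀ a, LinearMap.trace L A.HPp (A.actp a) - LinearMap.trace L A.HPm (A.actm a) =
    (A.chi a : L)

/-- The closed points of the hypersurface `X` defined by `form p t` in the projective space of
dimension `p - 1` over the field `k(t)` of rational functions: the residue field and the coordinates. -/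
structure ClosedPoint (p : ℕ) [Fact p.Prime] (k : Type) [Field k] where
  res : Type
  [field : Field res]
  [alg : Algebra (RatFunc k) res]
  [fin : FiniteDimensional (RatFunc k) res]
  coord : Fin p → res
  ne_zero : coord ≠ 0
  eq_zero : aeval coord (form p (RatFunc.X : RatFunc k)) = 0

attribute [instance] ClosedPoint.field ClosedPoint.alg ClosedPoint.fin

/-- The degree of a closed point. -/
def ClosedPoint.deg {p : ℕ} [Fact p.Prime] {k : Type} [Field k] (x : ClosedPoint p k) : ℕ :=
  Module.finrank (RatFunc k) x.res

/-- Known properties of `A = perf_dg(X)` for the hypersurface `X` (of dimension `p - 2`). -/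
structure IsPerf (A : DgCat L) (p : ℕ) [Fact p.Prime] (k : Type) [Field k] : Prop where
  /-- The theorem of Hirzebruch-Riemann-Roch: `chi M` is the Euler characteristic of the restriction
  of `M` to the diagonal of `X × X`, which is the degree of a zero-cycle with denominators that
  contain only primes smaller than `p`. -/
  riemannRoch : ∃ N : ℤ, ¬ (p : ℤ) ∣ N ∧ ∀ a, ∃ z : ClosedPoint p k →₀ ℤ,
    N * A.chi a = z.sum fun x n => n * x.deg
  /-- The even cohomology of `X` is generated by the powers of the hyperplane class. -/
  finrank_even : Module.finrank L A.HPp = p - 1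

/-- The even Künneth projector of `A` is algebraic with coefficients in `F`. -/
def EvenAlgebraic (F : Type) [Field F] [Algebra F L] (A : DgCat L) : Prop :=
  ∃ (n : ℕ) (f : Fin n → F) (a : Fin n → A.K),
    ∑ i, algebraMap F L (f i) • A.actp (a i) = 1 ∧ ∑ i, algebraMap F L (f i) • A.actm (a i) = 0

/-- The odd Künneth projector of `A` is algebraic with coefficients in `F`. -/
def OddAlgebraic (F : Type) [Field F] [Algebra F L] (A : DgCat L) : Prop :=
  ∃ (n : ℕ) (f : Fin n → F) (a : Fin n → A.K),
    ∑ i, algebraMap F L (f i) • A.actp (a i) = 0 ∧ ∑ i, algebraMap F L (f i) • A.actm (a i) = 1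

end

end Pool.Agent.W495.NC
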