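import Pool.Agent.W495.NC.Defs

/-!
# The Künneth projectors are not algebraic
-/

set_option autoImplicit false
set_option linter.unusedVariables false

namespace Pool.Agent.W495.NC

open MvPolynomial

noncomputable section

variable {L : Type} [Field L]

theorem charP_L (p : ℕ) (k : Type) [Field k] [CharP k p] [Algebra (RatFunc k) L] : CharP L p := by
  have h : Function.Injective ((algebraMap (RatFunc k) L).comp (algebraMap k (RatFunc k))) :=
    ((algebraMap (RatFunc k) L).comp (algebraMap k (RatFunc k))).injective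
  exact charP_of_injective_ringHom h p

/-- The degrees of the closed points are divisible by `p`. -/
theorem dvd_deg (hA : Anisotropic) {p : ℕ} [Fact p.Prime] {k : Type} [Field k] [CharP k p]
    (x : ClosedPoint p k) : p ∣ x.deg := by
  by_contra h
  exact x.ne_zero (hA p k x.res x.coord h x.eq_zero)

/-- The Euler characteristics are divisible by `p`. -/
theorem dvd_chi (hAn : Anisotropic) {p : ℕ} [Fact p.Prime] {k : Type} [Field k] [CharP k p]
    {A : DgCat L} (hX : IsPerf A p k) (a : A.K) : (p : ℤ) ∣ A.chi a := by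
  obtain ⟨N, hN, h⟩ := hX.riemannRoch
  obtain ⟨z, hz⟩ := h a
  have hp : Prime (p : ℤ) := Nat.prime_iff_prime_int.1 (Fact.out : p.Prime)
  have h1 : (p : ℤ) ∣ N * A.chi a := by
    rw [hz, Finsupp.sum]
    refine Finset.dvd_sum fun x _ => Dvd.dvd.mul_left ?_ _
    exact_mod_cast dvd_deg hAn x
  exact (hp.dvd_or_dvd h1).resolve_left hN

variable {F : Type} [Field F] [Algebra F L]

theorem supertrace_eq_zero (hAn : Anisotropic) {p : ℕ} [Fact p.Prime] {k : Type} [Field k]
    [CharP k p] [Algebra (RatFunc k) L] {A : DgCat L} (hA : IsSaturated A) (hX : IsPerf A p k)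
    {n : ℕ} (f : Fin n → F) (a : Fin n → A.K) :
    LinearMap.trace L A.HPp (∑ i, algebraMap F L (f i) • A.actp (a i)) =
      LinearMap.trace L A.HPm (∑ i, algebraMap F L (f i) • A.actm (a i)) := by
  have := charP_L (L := L) p k
  rw [map_sum, map_sum]
  refine Finset.sum_congr rfl fun i _ => ?_
  rw [map_smul, map_smul]
  congr 1
  rw [← sub_eq_zero, hA.supertrace]
  obtain ⟨c, hc⟩ := dvd_chi hAn hX (a i)
  rw [hc]
  push_cast
  rw [CharP.cast_eq_zero L p, zero_mul]

theorem not_even (hAn : Anisotropic) {p : ℕ} [Fact p.Prime] {k : Type} [Field k]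
    [CharP k p] [Algebra (RatFunc k) L] {A : DgCat L} (hA : IsSaturated A) (hX : IsPerf A p k) :
    ¬ EvenAlgebraic F A := by
  rintro ⟨n, f, a, h1, h2⟩
  have := charP_L (L := L) p k
  have := hA.finP
  have h3 := supertrace_eq_zero hAn hA hX f a
  rw [h1, h2, LinearMap.map_zero, LinearMap.trace_one, hX.finrank_even,
    Nat.cast_sub (Fact.out : p.Prime).one_le, CharP.cast_eq_zero L p, zero_sub, Nat.cast_one,
    neg_eq_zero] at h3
  exact one_ne_zero h3

theorem even_of_odd {A : DgCat L} (hA : IsSaturated A) (h : OddAlgebraic F A) :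
    EvenAlgebraic F A := by
  obtain ⟨n, f, a, h1, h2⟩ := h
  refine ⟨n + 1, Fin.cons 1 fun i => -f i, Fin.cons A.diag a, ?_, ?_⟩
  · rw [Fin.sum_univ_succ]
    simp only [Fin.cons_zero, Fin.cons_succ, map_one, one_smul, map_neg, neg_smul,
      Finset.sum_neg_distrib]
    rw [h1, hA.diagp, neg_zero, add_zero]
  · rw [Fin.sum_univ_succ]
    simp only [Fin.cons_zero, Fin.cons_succ, map_one, one_smul, map_neg, neg_smul,
      Finset.sum_neg_distrib]
    rw [h2, hA.diagm, add_neg_cancel]

end

end Pool.Agent.W495.NC
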